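import Pool.Agent.H29.RT.Targets

/-!
# The core (COS), part 1: parameters, coefficient at one, limits
-/

set_option autoImplicit false

open Complex MeasureTheory Set Filter Topology

namespace Pool.Agent.H53.RT

open Pool.Agent.H29.RT Pool.Agent.H25.DP Pool.Agent.H25.DL Pool.Agent.H25.MZ

/-- strict concavity of the power function on two intervals of the same length -/
lemma concave_gap {α x₁ x₂ d : ℝ} (h0 : 0 < α) (h1 : α < 1) (hx1 : 0 < x₁) (hx : x₁ < x₂)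
    (hd : x₂ < d / 2) : (d - x₁) ^ α - (d - x₂) ^ α < x₂ ^ α - x₁ ^ α := by
  have hc := Real.strictConcaveOn_rpow h0 h1
  have m1 : x₁ ∈ Ici (0 : ℝ) := mem_Ici.2 hx1.le
  have m2 : x₂ ∈ Ici (0 : ℝ) := mem_Ici.2 (by linarith)
  have m3 : d - x₂ ∈ Ici (0 : ℝ) := mem_Ici.2 (by linarith)
  have m4 : d - x₁ ∈ Ici (0 : ℝ) := mem_Ici.2 (by linarith)
  have s1 := hc.slope_anti_adjacent m1 m3 hx (by linarith : x₂ < d - x₂)
  have s2 := hc.slope_anti_adjacent m2 m4 (by linarith : x₂ < d - x₂) (by linarith : d - x₂ < d - x₁)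
  have s3 := s2.trans s1
  have e : d - x₁ - (d - x₂) = x₂ - x₁ := by ring
  rw [e, div_lt_div_iff_of_pos_right (by linarith)] at s3
  exact s3

/-- the parameters -/
lemma params {d α ε : ℝ} (hd : 0 < d) (hd2 : d < 2) (h0 : 0 < α) (h1 : α < 1) (hε : 0 < ε) :
    ∃ x₁ x₂ D D' δ ρ₀ t : ℝ, 0 < x₁ ∧ x₁ < x₂ ∧ x₂ < D' ∧ D' < 1 ∧ x₂ < d ∧ 0 < δ ∧
      d - x₁ + δ < D ∧ D < 1 ∧ 0 < ρ₀ ∧ ρ₀ ≤ 1 ∧ ρ₀ ≤ 2 - 2 * D' ∧
      min 1 (4 - 2 * d) - ε ≤ ρ₀ - ε / 2 ∧ 0 < t ∧ 0 < x₂ - δ ∧ 0 < d - x₂ - δ ∧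
      (1 + t) * ((d - x₁ + δ) ^ α - (d - x₂ - δ) ^ α) < (x₂ - δ) ^ α - (x₁ + δ) ^ α := by
  obtain ⟨x₀, hx₀⟩ : ∃ x : ℝ, x = max (d - 1) 0 := ⟨_, rfl⟩
  have hx0 : 0 ≤ x₀ := by rw [hx₀]; exact le_max_right _ _
  have hx0d : d - 1 ≤ x₀ := by rw [hx₀]; exact le_max_left _ _
  have hx0h : x₀ < d / 2 := by rw [hx₀]; exact max_lt (by linarith) (by linarith)
  have hx01 : x₀ < 1 := by linarith
  obtain ⟨k, hk⟩ : ∃ k : ℝ, k = min (min ((d / 2 - x₀) / 4) ((1 - x₀) / 6))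
    (min (1 / 10) (ε / 40)) := ⟨_, rfl⟩
  have hk0 : 0 < k := by
    rw [hk]
    exact lt_min (lt_min (by linarith) (by linarith)) (lt_min (by norm_num) (by linarith))
  have hk1 : k ≤ (d / 2 - x₀) / 4 := by rw [hk]; exact (min_le_left _ _).trans (min_le_left _ _)
  have hk2 : k ≤ (1 - x₀) / 6 := by rw [hk]; exact (min_le_left _ _).trans (min_le_right _ _)
  have hk3 : k ≤ 1 / 10 := by rw [hk]; exact (min_le_right _ _).trans (min_le_left _ _)
  have hk4 : k ≤ ε / 40 := by rw [hk]; exact (min_le_right _ _).trans (min_le_right _ _)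
  have hgap := concave_gap (d := d) h0 h1 (x₁ := x₀ + 2 * k) (x₂ := x₀ + 3 * k) (by linarith)
    (by linarith) (by linarith)
  have hcont : Continuous fun s : ℝ => (x₀ + 3 * k - s) ^ α - (x₀ + 2 * k + s) ^ α -
      (1 + s) * ((d - (x₀ + 2 * k) + s) ^ α - (d - (x₀ + 3 * k) - s) ^ α) := by
    have hr : ∀ g : ℝ → ℝ, Continuous g → Continuous fun s => g s ^ α := fun g hg =>
      hg.rpow_const fun _ => Or.inr h0.le
    have c1 := hr (fun s => x₀ + 3 * k - s) (by fun_prop)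
    have c2 := hr (fun s => x₀ + 2 * k + s) (by fun_prop)
    have c3 := hr (fun s => d - (x₀ + 2 * k) + s) (by fun_prop)
    have c4 := hr (fun s => d - (x₀ + 3 * k) - s) (by fun_prop)
    have c5 : Continuous fun s : ℝ => 1 + s := by fun_prop
    exact (c1.sub c2).sub (c5.mul (c3.sub c4))
  have h3 : ∀ᶠ s : ℝ in 𝓝[>] 0, 0 < (x₀ + 3 * k - s) ^ α - (x₀ + 2 * k + s) ^ α -
      (1 + s) * ((d - (x₀ + 2 * k) + s) ^ α - (d - (x₀ + 3 * k) - s) ^ α) := by
    have h4 : ∀ᶠ s : ℝ in 𝓝 0, 0 < (x₀ + 3 * k - s) ^ α - (x₀ + 2 * k + s) ^ α -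
      (1 + s) * ((d - (x₀ + 2 * k) + s) ^ α - (d - (x₀ + 3 * k) - s) ^ α) := by
      refine (hcont.tendsto 0).eventually_const_lt ?_
      simp only [sub_zero, add_zero, one_mul]
      linarith
    exact h4.filter_mono nhdsWithin_le_nhds
  have h5 : ∀ᶠ s : ℝ in 𝓝[>] 0, s < k / 2 := by
    have : ∀ᶠ s : ℝ in 𝓝 0, s < k / 2 := eventually_lt_nhds (by linarith)
    exact this.filter_mono nhdsWithin_le_nhds
  have h6 : ∀ᶠ s : ℝ in 𝓝[>] 0, 0 < s := eventually_mem_nhdsWithin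
  obtain ⟨s, hs1, hs2, hs3⟩ := (h3.and (h5.and h6)).exists
  refine ⟨x₀ + 2 * k, x₀ + 3 * k, 1 - k / 2, x₀ + 5 * k, s, min 1 (2 - 2 * (x₀ + 5 * k)), s,
    by linarith, by linarith, by linarith, by linarith, by linarith, hs3, by linarith,
    by linarith, lt_min one_pos (by linarith), min_le_left _ _, min_le_right _ _, ?_, hs3,
    by linarith, by linarith, by linarith⟩
  have h7 : min 1 (4 - 2 * d) - ε / 2 ≤ min 1 (2 - 2 * (x₀ + 5 * k)) := by
    refine le_min ?_ ?_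
    · have := min_le_left 1 (4 - 2 * d)
      linarith
    · rcases le_total (d - 1) 0 with h | h
      · have h8 : x₀ = 0 := by rw [hx₀]; exact max_eq_right h
        have := min_le_left 1 (4 - 2 * d)
        linarith
      · have h8 : x₀ = d - 1 := by rw [hx₀]; exact max_eq_left h
        have := min_le_right 1 (4 - 2 * d)
        linarith
  linarith

variable {ι : Type} [Fintype ι]

lemma ac_one (f : ι → Fac) : ac f 1 = 1 := by
  classical
  unfold ac
  have h : (Fintype.piFinset fun _ : ι => (1 : ℕ).divisors).filter (fun z => ∏ l, z l = 1) =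
      {fun _ => 1} := by
    ext z
    rw [Finset.mem_filter, Fintype.mem_piFinset, Finset.mem_singleton]
    constructor
    · rintro ⟨h1, -⟩
      funext l
      have := h1 l
      simpa using this
    · rintro rfl
      simp
  have h2 : ∑ z ∈ (Fintype.piFinset fun _ : ι => (1 : ℕ).divisors).filter
      (fun z => ∏ l, z l = 1), cc f z = cc f fun _ => 1 := by
    rw [h, Finset.sum_singleton]
  have h3 : cc f (fun _ : ι => 1) = 1 := by
    unfold cc
    refine Finset.prod_eq_one fun l _ => ?_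
    rw [(f l).c_one]
    simp
  rw [← h3, ← h2]

lemma one_le_En (f : ι → Fac) {y : ℝ} (hy : 1 ≤ y) : 1 ≤ En f y := by
  unfold En
  have h1 : 1 ∈ Finset.Icc 1 ⌊y⌋₊ := by
    rw [Finset.mem_Icc]
    exact ⟨le_rfl, Nat.le_floor (by exact_mod_cast hy)⟩
  have h2 := Finset.single_le_sum (f := fun k : ℕ => ‖ac f k‖ ^ 2 / (k : ℝ))
    (fun k _ => by positivity) h1
  simp only [ac_one, norm_one, one_pow, Nat.cast_one, div_one] at h2
  exact h2

/-- the final comparison for large `T` -/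
lemma final (f : ι → Fac) {α : ℝ} (hRV : RV f α) {a b c e t K c₁ c₂ c₃ A E : ℝ} (ha : 0 < a)
    (hb : 0 < b) (hc : 0 < c) (he : 0 < e) (hK : 0 < K) (hc1 : 0 < c₁) (hc2 : 0 < c₂)
    (hc3 : 0 < c₃) (hgap : (1 + t) * (c ^ α - e ^ α) < a ^ α - b ^ α) :
    ∀ᶠ T : ℝ in atTop, (1 + t) * (K * T * (En f (T ^ c) - En f (T ^ e)) + T ^ (1 - c₂)) +
      A * Real.log T * (E + T ^ (1 - c₃)) + T ^ (1 - c₁) <
        K * T * (En f (T ^ a) - En f (T ^ b)) := by
  obtain ⟨g, hg⟩ : ∃ g : ℝ, g = (a ^ α - b ^ α) - (1 + t) * (c ^ α - e ^ α) := ⟨_, rfl⟩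
  have hg0 : 0 < g := by rw [hg]; linarith
  have h1 : Tendsto (fun T : ℝ => (En f (T ^ a) / En f T - En f (T ^ b) / En f T) -
      (1 + t) * (En f (T ^ c) / En f T - En f (T ^ e) / En f T)) atTop (𝓝 g) := by
    rw [hg]
    exact ((hRV a ha).sub (hRV b hb)).sub (((hRV c hc).sub (hRV e he)).const_mul (1 + t))
  have h2 := h1.eventually_const_lt (show g / 2 < g by linarith)
  have hp : ∀ x : ℝ, 0 < x → Tendsto (fun T : ℝ => T ^ (-x)) atTop (𝓝 0) := fun x hx =>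
    tendsto_rpow_neg_atTop hx
  have hl : ∀ x : ℝ, 0 < x → Tendsto (fun T : ℝ => Real.log T * T ^ (-x)) atTop (𝓝 0) := by
    intro x hx
    have h3 := (isLittleO_log_rpow_atTop hx).tendsto_div_nhds_zero
    refine h3.congr' ?_
    filter_upwards [eventually_gt_atTop (0 : ℝ)] with T hT
    rw [Real.rpow_neg hT.le, div_eq_mul_inv]
  have h4 : Tendsto (fun T : ℝ => (1 + t) * T ^ (-c₂) + (A * E * (Real.log T * T ^ (-1 : ℝ)) +
      A * (Real.log T * T ^ (-c₃))) + T ^ (-c₁)) atTop (𝓝 0) := by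
    have := (((hp c₂ hc2).const_mul (1 + t)).add (((hl 1 one_pos).const_mul (A * E)).add
      ((hl c₃ hc3).const_mul A))).add (hp c₁ hc1)
    simpa using this
  have h5 := h4.eventually_lt_const (show 0 < K * (g / 2) by positivity)
  filter_upwards [h2, h5, eventually_ge_atTop (1 : ℝ)] with T hT2 hT5 hT1
  have hT0 : 0 < T := by linarith
  have hEn := one_le_En f hT1
  have hEn0 : 0 < En f T := by linarith
  have e1 : ∀ x : ℝ, T ^ (1 - x) = T * T ^ (-x) := by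
    intro x
    rw [sub_eq_add_neg, Real.rpow_add hT0, Real.rpow_one]
  rw [e1, e1, e1]
  have e2 : T * T ^ (-1 : ℝ) = 1 := by
    rw [Real.rpow_neg hT0.le, Real.rpow_one, mul_inv_cancel₀ hT0.ne']
  have h6 : T * ((1 + t) * T ^ (-c₂) + (A * E * (Real.log T * T ^ (-1 : ℝ)) +
      A * (Real.log T * T ^ (-c₃))) + T ^ (-c₁)) < T * (K * (g / 2)) :=
    mul_lt_mul_of_pos_left hT5 hT0
  have h7 : T * ((1 + t) * T ^ (-c₂) + (A * E * (Real.log T * T ^ (-1 : ℝ)) +
      A * (Real.log T * T ^ (-c₃))) + T ^ (-c₁)) = (1 + t) * (T * T ^ (-c₂)) +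
      A * Real.log T * (E * (T * T ^ (-1 : ℝ)) + T * T ^ (-c₃)) + T * T ^ (-c₁) := by ring
  rw [h7, e2, mul_one] at h6
  have h8 : T * (K * (g / 2)) ≤ K * T * ((En f (T ^ a) - En f (T ^ b)) -
      (1 + t) * (En f (T ^ c) - En f (T ^ e))) := by
    have h9 : (En f (T ^ a) - En f (T ^ b)) - (1 + t) * (En f (T ^ c) - En f (T ^ e)) =
        En f T * ((En f (T ^ a) / En f T - En f (T ^ b) / En f T) -
      (1 + t) * (En f (T ^ c) / En f T - En f (T ^ e) / En f T)) := by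
      field_simp
    rw [h9]
    have h10 : g / 2 ≤ En f T * ((En f (T ^ a) / En f T - En f (T ^ b) / En f T) -
      (1 + t) * (En f (T ^ c) / En f T - En f (T ^ e) / En f T)) := by
      have h11 : g / 2 ≤ 1 * ((En f (T ^ a) / En f T - En f (T ^ b) / En f T) -
        (1 + t) * (En f (T ^ c) / En f T - En f (T ^ e) / En f T)) := by linarith
      refine h11.trans (mul_le_mul_of_nonneg_right hEn ?_)
      linarith
    calc T * (K * (g / 2)) = K * T * (g / 2) := by ring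
      _ ≤ _ := mul_le_mul_of_nonneg_left h10 (by positivity)
  linarith

end Pool.Agent.H53.RT
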