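import Pool.Agent.H29.RT.Targets

/-!
# The core (COS), part 2: continuity and the comparison of the two mean squares
-/

set_option autoImplicit false

open Complex MeasureTheory Set Filter Topology

namespace Pool.Agent.H53.RT

open Pool.Agent.H29.RT Pool.Agent.H25.DP Pool.Agent.H25.DL Pool.Agent.H25.MZ

variable {ι : Type} [Fintype ι]

lemma continuous_AL (f : ι → Fac) (β D T : ℝ) :
    Continuous fun p : ℝ × ℝ => AL f β D T p.1 p.2 := by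
  unfold AL
  refine continuous_finsetSum _ fun z _ => ?_
  refine (Continuous.mul continuous_const ?_).mul ?_
  · fun_prop
  · exact continuous_ofReal.comp (by fun_prop)

lemma continuous_BR (f : ι → Fac) (β D T d B η : ℝ) :
    Continuous fun p : ℝ × ℝ => BR f β D T d B η p.1 (max p.2 1) := by
  have h0 : ∀ p : ℝ × ℝ, max p.2 1 ≠ 0 := fun p => by
    have := le_max_right p.2 1
    linarith
  have hm : Continuous fun p : ℝ × ℝ => max p.2 1 := by fun_prop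
  have hl : Continuous fun p : ℝ × ℝ => Real.log (max p.2 1) := hm.log h0
  have hd : Continuous fun p : ℝ × ℝ => η / max p.2 1 := continuous_const.div hm h0
  unfold BR
  refine continuous_finsetSum _ fun z _ => ?_
  refine (Continuous.mul continuous_const ?_).mul ?_
  · fun_prop
  · exact continuous_ofReal.comp (by fun_prop)

/-- the comparison on one window, for one value of `ξ` -/
lemma window {a b δ t A : ℝ} (hab : a ≤ b) (ht : 0 < t) {w : ℝ → ℝ} {P Q : ℝ → ℂ}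
    (hw : ContinuousOn w (Icc a b)) (hP : ContinuousOn P (Icc a b))
    (hQ : ContinuousOn Q (Icc a b)) {G : Set ℝ} (hGm : MeasurableSet G) (hG : G ⊆ Icc a b)
    (h0 : ∀ u ∈ Icc a b, 0 ≤ w u) (h1 : ∀ u ∈ Icc a b, w u ≤ 1)
    (h2 : ∀ u ∈ G, ‖P u‖ ≤ ‖Q u‖ + δ) (h3 : ∫ u in Icc a b \ G, ‖P u‖ ^ 2 ≤ A) :
    ∫ u in a..b, w u * ‖P u‖ ^ 2 ≤
      (1 + t) * (∫ u in a..b, w u * ‖Q u‖ ^ 2) + ((1 + t⁻¹) * δ ^ 2 * (b - a) + A) := by
  have hEs : Icc a b \ G ⊆ Icc a b := sdiff_subset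
  have hEm : MeasurableSet (Icc a b \ G) := measurableSet_Icc.diff hGm
  have c1 : ContinuousOn (fun u => w u * ‖P u‖ ^ 2) (Icc a b) := hw.mul (hP.norm.pow 2)
  have c2 : ContinuousOn (fun u => w u * ‖Q u‖ ^ 2) (Icc a b) := hw.mul (hQ.norm.pow 2)
  have c3 : ContinuousOn (fun u => (1 + t) * (w u * ‖Q u‖ ^ 2) + (1 + t⁻¹) * δ ^ 2) (Icc a b) :=
    (continuousOn_const.mul c2).add continuousOn_const
  have c4 : ContinuousOn (fun u => ‖P u‖ ^ 2) (Icc a b) := hP.norm.pow 2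
  have i1 := c1.integrableOn_Icc (μ := volume)
  have i2 := c2.integrableOn_Icc (μ := volume)
  have i3 := c3.integrableOn_Icc (μ := volume)
  have i4 := c4.integrableOn_Icc (μ := volume)
  have ht' : 0 < 1 + t⁻¹ := by positivity
  rw [intervalIntegral.integral_of_le hab, ← integral_Icc_eq_integral_Ioc,
    intervalIntegral.integral_of_le hab, ← integral_Icc_eq_integral_Ioc]
  have e1 : ∫ u in Icc a b, w u * ‖P u‖ ^ 2 = (∫ u in G, w u * ‖P u‖ ^ 2) +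
      ∫ u in Icc a b \ G, w u * ‖P u‖ ^ 2 := by
    have h7 : Icc a b = G ∪ (Icc a b \ G) := (union_sdiff_cancel hG).symm
    nth_rw 1 [h7]
    exact setIntegral_union disjoint_sdiff_right hEm (i1.mono_set hG) (i1.mono_set hEs)
  have b1 : ∫ u in G, w u * ‖P u‖ ^ 2 ≤
      ∫ u in G, ((1 + t) * (w u * ‖Q u‖ ^ 2) + (1 + t⁻¹) * δ ^ 2) := by
    refine setIntegral_mono_on (i1.mono_set hG) (i3.mono_set hG) hGm fun u hu => ?_
    have k0 := h0 u (hG hu)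
    have k1 := h1 u (hG hu)
    have k2 := h2 u hu
    have k3 : ‖P u‖ ^ 2 ≤ (1 + t) * ‖Q u‖ ^ 2 + (1 + t⁻¹) * δ ^ 2 := by
      have k4 : ‖P u‖ ^ 2 ≤ (‖Q u‖ + δ) ^ 2 := pow_le_pow_left₀ (norm_nonneg _) k2 2
      have k5 : (‖Q u‖ + δ) ^ 2 ≤ (1 + t) * ‖Q u‖ ^ 2 + (1 + t⁻¹) * δ ^ 2 := by
        have k6 : 0 ≤ t⁻¹ * (t * ‖Q u‖ - δ) ^ 2 := by positivity
        have k7 : t⁻¹ * (t * ‖Q u‖ - δ) ^ 2 = t * ‖Q u‖ ^ 2 - 2 * ‖Q u‖ * δ + t⁻¹ * δ ^ 2 := by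
          field_simp
          ring
        rw [k7] at k6
        nlinarith
      exact k4.trans k5
    have k8 : 0 ≤ (1 + t⁻¹) * δ ^ 2 := by positivity
    calc w u * ‖P u‖ ^ 2 ≤ w u * ((1 + t) * ‖Q u‖ ^ 2 + (1 + t⁻¹) * δ ^ 2) :=
          mul_le_mul_of_nonneg_left k3 k0
      _ = (1 + t) * (w u * ‖Q u‖ ^ 2) + w u * ((1 + t⁻¹) * δ ^ 2) := by ring
      _ ≤ (1 + t) * (w u * ‖Q u‖ ^ 2) + 1 * ((1 + t⁻¹) * δ ^ 2) := by
          have := mul_le_mul_of_nonneg_right k1 k8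
          linarith
      _ = _ := by ring
  have b2 : ∫ u in G, ((1 + t) * (w u * ‖Q u‖ ^ 2) + (1 + t⁻¹) * δ ^ 2) ≤
      ∫ u in Icc a b, ((1 + t) * (w u * ‖Q u‖ ^ 2) + (1 + t⁻¹) * δ ^ 2) := by
    refine setIntegral_mono_set i3 ?_ (LE.le.eventuallyLE hG)
    filter_upwards [ae_restrict_mem measurableSet_Icc] with u hu
    have k0 := h0 u hu
    change (0 : ℝ) ≤ (1 + t) * (w u * ‖Q u‖ ^ 2) + (1 + t⁻¹) * δ ^ 2
    positivity
  have b3 : ∫ u in Icc a b, ((1 + t) * (w u * ‖Q u‖ ^ 2) + (1 + t⁻¹) * δ ^ 2) =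
      (1 + t) * (∫ u in Icc a b, w u * ‖Q u‖ ^ 2) + (1 + t⁻¹) * δ ^ 2 * (b - a) := by
    rw [integral_add (i2.const_mul _) (integrableOn_const (by
      rw [Real.volume_Icc]; exact ENNReal.ofReal_ne_top)), integral_const_mul,
      setIntegral_const, Real.volume_real_Icc_of_le hab, smul_eq_mul]
    ring
  have b4 : ∫ u in Icc a b \ G, w u * ‖P u‖ ^ 2 ≤ ∫ u in Icc a b \ G, ‖P u‖ ^ 2 := by
    refine setIntegral_mono_on (i1.mono_set hEs) (i4.mono_set hEs) hEm fun u hu => ?_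
    have k1 := h1 u (hEs hu)
    have k2 : 0 ≤ ‖P u‖ ^ 2 := by positivity
    calc w u * ‖P u‖ ^ 2 ≤ 1 * ‖P u‖ ^ 2 := mul_le_mul_of_nonneg_right k1 k2
      _ = _ := one_mul _
  rw [e1]
  linarith

/-- the comparison of the double integrals, abstract form -/
lemma double' {a b x₁ x₂ δ t A : ℝ} (hab : a ≤ b) (ht : 0 < t) (hx : x₁ ≤ x₂) {w : ℝ → ℝ}
    {P Q : ℝ → ℝ → ℂ} (hw : Continuous w) (hP : Continuous fun p : ℝ × ℝ => P p.1 p.2)
    (hQ : Continuous fun p : ℝ × ℝ => Q p.1 p.2) {G : Set ℝ} (hGm : MeasurableSet G)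
    (hG : G ⊆ Icc a b) (h0 : ∀ u ∈ Icc a b, 0 ≤ w u) (h1 : ∀ u ∈ Icc a b, w u ≤ 1)
    (h2 : ∀ u ∈ G, ∀ ξ ∈ Icc x₁ x₂, ‖P ξ u‖ ≤ ‖Q ξ u‖ + δ)
    (h3 : ∀ ξ : ℝ, ∫ u in Icc a b \ G, ‖P ξ u‖ ^ 2 ≤ A) :
    (∫ ξ in x₁..x₂, ∫ u in a..b, w u * ‖P ξ u‖ ^ 2) ≤
      (1 + t) * (∫ ξ in x₁..x₂, ∫ u in a..b, w u * ‖Q ξ u‖ ^ 2) +
        (x₂ - x₁) * ((1 + t⁻¹) * δ ^ 2 * (b - a) + A) := by
  have cA : Continuous fun ξ : ℝ => ∫ u in a..b, w u * ‖P ξ u‖ ^ 2 := by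
    apply intervalIntegral.continuous_parametric_intervalIntegral_of_continuous'
    exact (hw.comp continuous_snd).mul (hP.norm.pow 2)
  have cB : Continuous fun ξ : ℝ => ∫ u in a..b, w u * ‖Q ξ u‖ ^ 2 := by
    apply intervalIntegral.continuous_parametric_intervalIntegral_of_continuous'
    exact (hw.comp continuous_snd).mul (hQ.norm.pow 2)
  have key : ∀ ξ ∈ Icc x₁ x₂, (∫ u in a..b, w u * ‖P ξ u‖ ^ 2) ≤
      (1 + t) * (∫ u in a..b, w u * ‖Q ξ u‖ ^ 2) + ((1 + t⁻¹) * δ ^ 2 * (b - a) + A) := by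
    intro ξ hξ
    have c1 : Continuous fun u : ℝ => P ξ u := hP.comp (Continuous.prodMk_right ξ)
    have c2 : Continuous fun u : ℝ => Q ξ u := hQ.comp (Continuous.prodMk_right ξ)
    exact window hab ht hw.continuousOn c1.continuousOn c2.continuousOn hGm hG h0 h1
      (fun u hu => h2 u hu ξ hξ) (h3 ξ)
  have i1 := cA.intervalIntegrable (μ := volume) x₁ x₂
  have i2 := cB.intervalIntegrable (μ := volume) x₁ x₂
  have h5 := intervalIntegral.integral_mono_on hx i1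
    ((i2.const_mul (1 + t)).add intervalIntegrable_const) key
  rw [intervalIntegral.integral_add (i2.const_mul (1 + t)) intervalIntegrable_const,
    intervalIntegral.integral_const_mul, intervalIntegral.integral_const, smul_eq_mul] at h5
  exact h5

/-- the comparison of the double integrals -/
lemma double (f : ι → Fac) {β D D' T d B η x₁ x₂ δ t A : ℝ} (hT : 1 ≤ T) (ht : 0 < t)
    (hx : x₁ ≤ x₂) {G : Set ℝ} (hGm : MeasurableSet G) (hG : G ⊆ Icc (5 * T / 4) (7 * T / 4))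
    (h2 : ∀ u ∈ G, ∀ ξ ∈ Icc x₁ x₂, ‖AL f β D' T ξ u‖ ≤ ‖BR f β D T d B η ξ u‖ + δ)
    (h3 : ∀ ξ : ℝ, ∫ u in Icc (5 * T / 4) (7 * T / 4) \ G, ‖AL f β D' T ξ u‖ ^ 2 ≤ A) :
    (∫ ξ in x₁..x₂, ∫ u in (5 * T / 4)..(7 * T / 4),
        om ((u - 5 * T / 4) / (T / 2)) * ‖AL f β D' T ξ u‖ ^ 2) ≤
      (1 + t) * (∫ ξ in x₁..x₂, ∫ u in (5 * T / 4)..(7 * T / 4),
        om ((u - 5 * T / 4) / (T / 2)) * ‖BR f β D T d B η ξ u‖ ^ 2) +
        (x₂ - x₁) * ((1 + t⁻¹) * δ ^ 2 * (T / 2) + A) := by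
  have hT0 : 0 < T := by linarith
  have hab : 5 * T / 4 ≤ 7 * T / 4 := by linarith
  obtain ⟨w, hw⟩ : ∃ w : ℝ → ℝ, w = fun u => om ((u - 5 * T / 4) / (T / 2)) := ⟨_, rfl⟩
  have hwu : ∀ u, om ((u - 5 * T / 4) / (T / 2)) = w u := fun u => by rw [hw]
  have cw : Continuous w := by
    rw [hw]
    exact continuous_om.comp (by fun_prop)
  have hr : ∀ u ∈ Icc (5 * T / 4) (7 * T / 4), 0 ≤ (u - 5 * T / 4) / (T / 2) ∧
      (u - 5 * T / 4) / (T / 2) ≤ 1 := fun u hu =>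
    ⟨div_nonneg (by linarith [hu.1]) (by linarith),
      (div_le_one (by linarith)).2 (by linarith [hu.2])⟩
  have w0 : ∀ u ∈ Icc (5 * T / 4) (7 * T / 4), 0 ≤ w u := fun u hu => by
    rw [← hwu]
    exact om_nonneg (hr u hu).1 (hr u hu).2
  have w1 : ∀ u ∈ Icc (5 * T / 4) (7 * T / 4), w u ≤ 1 := fun u hu => by
    rw [← hwu]
    exact om_le_one (hr u hu).1 (hr u hu).2
  simp only [hwu]
  clear hwu hw hr
  obtain ⟨P, hP⟩ : ∃ P : ℝ → ℝ → ℂ, P = fun ξ u => AL f β D' T ξ u := ⟨_, rfl⟩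
  obtain ⟨Q, hQ⟩ : ∃ Q : ℝ → ℝ → ℂ, Q = fun ξ u => BR f β D T d B η ξ (max u 1) := ⟨_, rfl⟩
  have cP : Continuous fun p : ℝ × ℝ => P p.1 p.2 := by
    rw [hP]
    exact continuous_AL f β D' T
  have cQ : Continuous fun p : ℝ × ℝ => Q p.1 p.2 := by
    rw [hQ]
    exact continuous_BR f β D T d B η
  have eP : ∀ ξ u, AL f β D' T ξ u = P ξ u := fun ξ u => by rw [hP]
  have eQ : ∀ ξ, ∀ u ∈ Icc (5 * T / 4) (7 * T / 4), BR f β D T d B η ξ u = Q ξ u := by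
    intro ξ u hu
    rw [hQ]
    simp only
    rw [max_eq_left (by linarith [hu.1])]
  have h6 : (∫ ξ in x₁..x₂, ∫ u in (5 * T / 4)..(7 * T / 4), w u * ‖BR f β D T d B η ξ u‖ ^ 2) =
      ∫ ξ in x₁..x₂, ∫ u in (5 * T / 4)..(7 * T / 4), w u * ‖Q ξ u‖ ^ 2 := by
    refine intervalIntegral.integral_congr fun ξ _ => ?_
    refine intervalIntegral.integral_congr fun u hu => ?_
    rw [uIcc_of_le hab] at hu
    simp only [eQ ξ u hu]
  rw [h6]
  simp only [eP] at h2 h3 ⊢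
  have h7 := double' hab ht hx cw cP cQ hGm hG w0 w1
    (fun u hu ξ hξ => by rw [← eQ ξ u (hG hu)]; exact h2 u hu ξ hξ) h3
  have e : 7 * T / 4 - 5 * T / 4 = T / 2 := by ring
  rw [e] at h7
  exact h7

end Pool.Agent.H53.RT
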