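import Pool.Agent.H53.RT.COSa
import Pool.Agent.H53.RT.COSb

/-!
# The core (COS)
-/

set_option autoImplicit false

open Complex MeasureTheory Set Filter Topology

namespace Pool.Agent.H53.RT

open Pool.Agent.H29.RT Pool.Agent.H25.DP Pool.Agent.H25.DL Pool.Agent.H25.MZ

variable {ι : Type} [Fintype ι]

lemma KR_mul (f : ι → Fac) (Y : ℂ → ℂ) (ω : ℂ) (β ξ R u : ℝ) :
    KR f (fun s => ω * Y s) β ξ R u = ω * KR f Y β ξ R u := by
  unfold KR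
  rw [← intervalIntegral.integral_const_mul]
  refine intervalIntegral.integral_congr fun y _ => ?_
  ring

/-- roots of unity have norm one -/
lemma norm_root {m : ℕ} (hm : 1 ≤ m) {ω : ℂ} (h : ω ^ m = 1) : ‖ω‖ = 1 := by
  have h1 : ‖ω‖ ^ m = 1 := by rw [← norm_pow, h, norm_one]
  exact (pow_eq_one_iff_of_nonneg (norm_nonneg _) (by omega)).1 h1

/-- the comparison of the two sides at a clean height -/
lemma near {p q r s a b κ c e : ℂ} {δ : ℝ} (hω : ‖c‖ = 1) (hκ : ‖κ‖ = 1) (he : ‖e‖ = 1)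
    (h1 : ‖r - q‖ ≤ δ) (h2 : ‖c * r - s‖ ≤ δ) (h3 : ‖s - p‖ ≤ δ) (h4 : ‖p - a‖ ≤ δ)
    (h5 : ‖q - κ * e * b‖ ≤ δ) : ‖a‖ ≤ ‖b‖ + 5 * δ := by
  have h7 : a = c * κ * e * b + (c * (q - κ * e * b) + c * (r - q) - (c * r - s) - (s - p) -
      (p - a)) := by ring
  have h8 : ‖c * κ * e * b‖ = ‖b‖ := by
    rw [norm_mul, norm_mul, norm_mul, hω, hκ, he]
    ring
  have h9 : ‖c * (q - κ * e * b)‖ ≤ δ := by rw [norm_mul, hω, one_mul]; exact h5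
  have h10 : ‖c * (r - q)‖ ≤ δ := by rw [norm_mul, hω, one_mul]; exact h1
  calc ‖a‖ = ‖c * κ * e * b + (c * (q - κ * e * b) + c * (r - q) - (c * r - s) - (s - p) -
      (p - a))‖ := by rw [← h7]
    _ ≤ ‖c * κ * e * b‖ + ‖c * (q - κ * e * b) + c * (r - q) - (c * r - s) - (s - p) -
      (p - a)‖ := norm_add_le _ _
    _ ≤ ‖c * κ * e * b‖ + (‖c * (q - κ * e * b)‖ + ‖c * (r - q)‖ + ‖c * r - s‖ + ‖s - p‖ +
      ‖p - a‖) := by
        have k1 := norm_sub_le (c * (q - κ * e * b) + c * (r - q) - (c * r - s) - (s - p)) (p - a)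
        have k2 := norm_sub_le (c * (q - κ * e * b) + c * (r - q) - (c * r - s)) (s - p)
        have k3 := norm_sub_le (c * (q - κ * e * b) + c * (r - q)) (c * r - s)
        have k4 := norm_add_le (c * (q - κ * e * b)) (c * (r - q))
        linarith
    _ ≤ ‖b‖ + 5 * δ := by rw [h8]; linarith

/-- (COS) the core: many bad heights. -/
theorem pf_COS (h1 : T_EXX) (h2 : T_SHX) (h3 : T_LLX) (h4 : T_DLE) (h5 : T_KXE) (h6 : T_MSL)
    (h7 : T_MSU) (h8 : T_BXA) : T_COS := by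
  intro ι _ f Y d t₀ α ε m hr hY hd hd2 hα0 hα1 hRV hε hm
  have hr1 : ∀ l, 1 ≤ (f l).r := fun l => (hr l).ge
  obtain ⟨x₁, x₂, D, D', δ, ρ₀, t, hx1, hx12, hx2D, hD'1, hx2d, hδ, hdD, hD1, hρ0, hρ1, hρ2, hρ3,
    ht, hpos1, hpos2, hgap⟩ := params hd hd2 hα0 hα1 hε
  have hx2 : 0 < x₂ := by linarith
  have hD'0 : 0 < D' := by linarith
  have hD0 : 0 < D := by linarith
  obtain ⟨κ, B, η, C₀, hκ, hph⟩ := hY.main
  obtain ⟨β₁, hβ₁, hEXX⟩ := h1 ι f Y d t₀ x₁ D hY hx1 (by linarith) (by linarith) hr1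
  obtain ⟨β₂, hβ₂, hLLX⟩ := h3 ι f x₂ D' hx2 hx2D hr1
  obtain ⟨c₃, hc₃, hBXA⟩ := h8 ι f D' ρ₀ (ε / 2) hr hD'0 hD'1 hρ0 hρ1 hρ2 (by linarith)
  refine ⟨max β₁ β₂, lt_max_of_lt_left hβ₁, fun β hβ C => ?_⟩
  have hβ0 : 0 < β := hβ₁.trans_le ((le_max_left _ _).trans hβ)
  obtain ⟨T₁, hEXX⟩ := hEXX β ((le_max_left _ _).trans hβ)
  obtain ⟨T₂, hLLX⟩ := hLLX β ((le_max_right _ _).trans hβ)
  obtain ⟨T₃, hBXA⟩ := hBXA β hβ0
  obtain ⟨T₄, hDLE⟩ := h4 ι f D' β hr1 hD'0 hD'1 hβ0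
  obtain ⟨T₅, hKXE⟩ := h5 ι f Y d t₀ κ B η C₀ β D hr hβ0 hD0 hD1 hY hκ hph
  obtain ⟨c₁, T₆, hc₁, hMSL⟩ := h6 ι f β D' x₁ x₂ δ hr hβ0 hx1 hx12 hx2D hD'1 hδ
  obtain ⟨c₂, T₇, hc₂, hMSU⟩ := h7 ι f β D d B η x₁ x₂ δ hr hβ0 hd hx1 hx12 hx2d hδ hdD hD1
  -- the contour shift, uniformly over the roots of unity
  have hSHX : ∀ᶠ T : ℝ in atTop, ∀ ω ∈ Polynomial.nthRootsFinset m (1 : ℂ), ∀ u ∈ Icc T (2 * T),
      Clean f (fun s => ω * Y s) β C T u → ∀ ξ : ℝ, 0 ≤ ξ → ξ ≤ x₂ * Real.log T →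
      ‖KR f (fun s => ω * Y s) β ξ (Real.log T) u - LR f β ξ (Real.log T) u‖ ≤
        T ^ (-(1 / 2) : ℝ) := by
    rw [Filter.eventually_all_finset]
    intro ω _
    obtain ⟨T', hT'⟩ := h2 ι f (fun s => ω * Y s) β C x₂ hβ0 hx2.le
    filter_upwards [eventually_ge_atTop T'] with T hT
    exact hT' T hT
  obtain ⟨K, hK⟩ : ∃ K : ℝ, K = 8 / 35 * (Real.sqrt (2 * Real.pi) / β) := ⟨_, rfl⟩
  have hK0 : 0 < K := by
    rw [hK]
    have : 0 < Real.sqrt (2 * Real.pi) := Real.sqrt_pos.2 (by positivity)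
    positivity
  have hfin := final f hRV (a := x₂ - δ) (b := x₁ + δ) (c := d - x₁ + δ) (e := d - x₂ - δ)
    (t := t) (K := K) (c₁ := c₁) (c₂ := c₂) (c₃ := c₃) (A := x₂ - x₁)
    (E := (1 + t⁻¹) * 25 / 2) hpos1 (by linarith) (by linarith) hpos2 hK0 hc₁ hc₂ hc₃ hgap
  obtain ⟨T₀, hT₀⟩ := eventually_atTop.1 (hSHX.and (hfin.and ((eventually_ge_atTop T₁).and
    ((eventually_ge_atTop T₂).and ((eventually_ge_atTop T₃).and ((eventually_ge_atTop T₄).and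
      ((eventually_ge_atTop T₅).and ((eventually_ge_atTop T₆).and ((eventually_ge_atTop T₇).and
        (eventually_ge_atTop 3))))))))))
  refine ⟨T₀, fun T hT G hGm hG hclean => ?_⟩
  obtain ⟨hSH, hfi, hT1, hT2, hT3, hT4, hT5, hT6, hT7, hT33⟩ := hT₀ T hT
  have hT0 : 0 < T := by linarith
  have hT1' : 1 ≤ T := by linarith
  have hL0 : 0 < Real.log T := Real.log_pos (by linarith)
  by_contra hcon
  push Not at hcon
  have hsub : Icc (5 * T / 4) (7 * T / 4) ⊆ Icc T (2 * T) :=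
    Icc_subset_Icc (by linarith) (by linarith)
  have hx12' : x₁ * Real.log T ≤ x₂ * Real.log T :=
    mul_le_mul_of_nonneg_right hx12.le hL0.le
  have hEm : MeasurableSet (Icc (5 * T / 4) (7 * T / 4) \ G) := measurableSet_Icc.diff hGm
  have hEs : Icc (5 * T / 4) (7 * T / 4) \ G ⊆ Icc T (2 * T) := sdiff_subset.trans hsub
  have hvol : volume.real (Icc (5 * T / 4) (7 * T / 4) \ G) ≤ T ^ (ρ₀ - ε / 2) :=
    hcon.le.trans (Real.rpow_le_rpow_of_exponent_le hT1' hρ3)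
  -- clean heights
  have hclose : ∀ u ∈ G, ∀ ξ ∈ Icc (x₁ * Real.log T) (x₂ * Real.log T),
      ‖AL f β D' T ξ u‖ ≤ ‖BR f β D T d B η ξ u‖ + 5 * T ^ (-(1 / 2) : ℝ) := by
    intro u hu ξ hξ
    have hu' := hsub (hG hu)
    have hξ0 : 0 ≤ ξ := le_trans (by positivity) hξ.1
    obtain ⟨ω, hω, hcl⟩ := hclean u hu
    have hω1 := norm_root hm hω
    have hωm : ω ∈ Polynomial.nthRootsFinset m (1 : ℂ) :=
      (Polynomial.mem_nthRootsFinset (by omega) 1).2 hω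
    have k1 := hEXX T hT1 u hu' ξ hξ.1
    have k2 := hLLX T hT2 u ξ hξ0 hξ.2
    have k3 := hSH ω hωm u hu' hcl ξ hξ0 hξ.2
    rw [KR_mul] at k3
    have k4 := hDLE T hT4 u ξ
    have k5 := hKXE T hT5 u hu' ξ
    have k6 : T ^ (-5 : ℝ) ≤ T ^ (-(1 / 2) : ℝ) :=
      Real.rpow_le_rpow_of_exponent_le hT1' (by norm_num)
    exact near hω1 hκ (Complex.norm_exp_ofReal_mul_I _) k1 k3 k2 (k4.trans k6) k5
  have hmain := double f (β := β) (D := D) (D' := D') (T := T) (d := d) (B := B) (η := η)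
    (x₁ := x₁ * Real.log T) (x₂ := x₂ * Real.log T) (δ := 5 * T ^ (-(1 / 2) : ℝ)) (t := t)
    (A := T ^ (1 - c₃)) hT1' ht hx12' hGm hG hclose
    (fun ξ => hBXA T hT3 ξ _ hEm hEs hvol)
  have hlow := hMSL T hT6
  have hup := hMSU T hT7
  have e1 : (5 * T ^ (-(1 / 2) : ℝ)) ^ 2 * (T / 2) = 25 / 2 := by
    have k1 : T ^ (-(1 / 2) : ℝ) * T ^ (-(1 / 2) : ℝ) * T = 1 := by
      nth_rw 3 [← Real.rpow_one T]
      rw [← Real.rpow_add hT0, ← Real.rpow_add hT0]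
      norm_num
    calc (5 * T ^ (-(1 / 2) : ℝ)) ^ 2 * (T / 2) =
        25 / 2 * (T ^ (-(1 / 2) : ℝ) * T ^ (-(1 / 2) : ℝ) * T) := by ring
      _ = _ := by rw [k1, mul_one]
  have e2 : (1 + t⁻¹) * (5 * T ^ (-(1 / 2) : ℝ)) ^ 2 * (T / 2) = (1 + t⁻¹) * 25 / 2 := by
    rw [mul_assoc, e1]
    ring
  rw [e2] at hmain
  have e3 : ∀ X : ℝ, 8 / 35 * T * (Real.sqrt (2 * Real.pi) / β) * X = K * T * X := by
    intro X
    rw [hK]
    ring
  rw [e3] at hlow hup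
  have e4 : x₂ * Real.log T - x₁ * Real.log T = (x₂ - x₁) * Real.log T := by ring
  rw [e4] at hmain
  have h9 := mul_le_mul_of_nonneg_left hup (show 0 ≤ 1 + t by linarith)
  linarith

end Pool.Agent.H53.RT
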