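import Pool.Agent.H29.RT.Targets

/-!
# Many exceptional points (FIS)
-/

set_option autoImplicit false

open Complex MeasureTheory Set Filter Topology

namespace Pool.Agent.H53.RT

open Pool.Agent.H29.RT Pool.Agent.H25.DP Pool.Agent.H25.DL Pool.Agent.H25.MZ

lemma eventually_log_le {κ : ℝ} (hκ : 0 < κ) (c : ℝ) :
    ∀ᶠ T : ℝ in atTop, c * Real.log T ≤ T ^ κ := by
  have h1 := ((isLittleO_log_rpow_atTop hκ).const_mul_left c).bound zero_lt_one
  filter_upwards [h1, eventually_ge_atTop (0 : ℝ)] with T hT hT0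
  rw [one_mul, Real.norm_eq_abs, Real.norm_eq_abs, abs_of_nonneg (Real.rpow_nonneg hT0 _)] at hT
  exact (le_abs_self _).trans hT

/-- (FIS) many exceptional points. -/
theorem pf_FIS (h1 : T_COS) (h2 : T_YR) (h3 : T_CL3) : T_FIS := by
  intro F m α ε hI hJ hm hd hdm hα0 hα1 hRV hε
  have hm0 : (0 : ℝ) < m := by
    have : 0 < m := hm
    exact_mod_cast this
  obtain ⟨y, t₀, hy, hyF⟩ := h2 F m hm
  have hr : ∀ l, (rf F m l).r = 1 := by
    rintro (x | x)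
    · exact hI x.1
    · exact hJ x.1
  have hd0 : 0 < F.d / m := div_pos hd hm0
  have hd2 : F.d / m < 2 := by
    rw [div_lt_iff₀ hm0]
    exact hdm
  obtain ⟨β₁, hβ₁, hCO⟩ := h1 F.Ix (rf F m) y (F.d / m) t₀ α (ε / 2) m hr hy hd0 hd2 hα0 hα1 hRV
    (by linarith) hm
  obtain ⟨β₂, hβ₂, hCL⟩ := h3 F m hm y t₀ hy hyF
  obtain ⟨C, T₁, hCL⟩ := hCL (max β₁ β₂) (le_max_right _ _) 1 le_rfl
  obtain ⟨T₂, hCO⟩ := hCO (max β₁ β₂) (le_max_left _ _) C
  obtain ⟨q, hq⟩ : ∃ q : ℝ, q = min 1 (4 - 2 * (F.d / m)) := ⟨_, rfl⟩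
  rw [← hq] at hCO ⊢
  obtain ⟨T₀, hT₀⟩ := eventually_atTop.1 ((eventually_log_le (κ := ε / 2) (by linarith) 6).and
    ((eventually_log_le (κ := 1) one_pos 12).and
    ((eventually_ge_atTop T₁).and ((eventually_ge_atTop T₂).and (eventually_ge_atTop (3 : ℝ))))))
  refine ⟨T₀, fun T hT => ?_⟩
  obtain ⟨hsm, hsm2, hT1, hT2, hT3⟩ := hT₀ T hT
  rw [Real.rpow_one] at hsm2
  have hT0 : 0 < T := by linarith
  have hCL' := hCL T hT1
  rw [Real.rpow_one] at hCL'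
  obtain ⟨ℓ, hℓ⟩ : ∃ ℓ : ℝ, ℓ = Real.log T := ⟨_, rfl⟩
  have hℓ0 : 0 < ℓ := by rw [hℓ]; exact Real.log_pos (by linarith)
  rw [← hℓ] at hsm hsm2 hCL'
  have hsubI : Icc (5 * T / 4) (7 * T / 4) ⊆ Icc T (2 * T) :=
    Icc_subset_Icc (by linarith) (by linarith)
  obtain ⟨Ex, hEx⟩ : ∃ Ex : Set ℂ, Ex = {z | ExcM F m z ∧ ∃ v ∈ Icc (5 * T / 4) (7 * T / 4),
    |z.im - v| ≤ 3 * ℓ} := ⟨_, rfl⟩
  have hExim : ∀ z ∈ Ex, T ≤ z.im ∧ z.im ≤ 2 * T ∧ ExcM F m z := by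
    intro z hz
    rw [hEx] at hz
    obtain ⟨h1, v, hv, h2⟩ := hz
    have h3 := abs_le.1 h2
    have h4 := hv.1
    have h5 := hv.2
    refine ⟨?_, ?_, h1⟩ <;> linarith
  by_cases hfin : Ex.Finite
  · refine ⟨hfin.toFinset, ?_, fun z hz => hExim z (hfin.mem_toFinset.1 hz)⟩
    obtain ⟨G, hG⟩ : ∃ G : Set ℝ, G = Icc (5 * T / 4) (7 * T / 4) \
        ⋃ z ∈ Ex, Icc (z.im - 3 * ℓ) (z.im + 3 * ℓ) := ⟨_, rfl⟩
    have hUm : MeasurableSet (⋃ z ∈ Ex, Icc (z.im - 3 * ℓ) (z.im + 3 * ℓ)) :=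
      hfin.measurableSet_biUnion fun z _ => measurableSet_Icc
    have hGm : MeasurableSet G := by rw [hG]; exact measurableSet_Icc.diff hUm
    have hGs : G ⊆ Icc (5 * T / 4) (7 * T / 4) := by rw [hG]; exact sdiff_subset
    have hclean : ∀ u ∈ G, ∃ ω : ℂ, ω ^ m = 1 ∧
        Clean (rf F m) (fun s => ω * y s) (max β₁ β₂) C T u := by
      intro u hu
      obtain ⟨ω, hω, hcl⟩ := hCL' u (hsubI (hGs hu)) fun z hz hzu => by
        rw [hG] at hu
        refine hu.2 ?_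
        rw [mem_iUnion₂]
        refine ⟨z, ?_, ?_⟩
        · rw [hEx]
          exact ⟨hz, u, hu.1, hzu⟩
        · have := abs_le.1 hzu
          constructor <;> linarith
      exact ⟨ω, hω, hcl u ⟨le_rfl, by linarith⟩⟩
    have h1 := hCO T hT2 G hGm hGs hclean
    have h2 : volume.real (Icc (5 * T / 4) (7 * T / 4) \ G) ≤ hfin.toFinset.card * (6 * ℓ) := by
      have h3 : Icc (5 * T / 4) (7 * T / 4) \ G ⊆
          ⋃ z ∈ hfin.toFinset, Icc (z.im - 3 * ℓ) (z.im + 3 * ℓ) := by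
        intro u hu
        rw [hG] at hu
        by_contra hcon
        refine hu.2 ⟨hu.1, fun h4 => hcon ?_⟩
        rw [mem_iUnion₂] at h4 ⊢
        obtain ⟨z, hz, h5⟩ := h4
        exact ⟨z, hfin.mem_toFinset.2 hz, h5⟩
      have h4 : volume (⋃ z ∈ hfin.toFinset, Icc (z.im - 3 * ℓ) (z.im + 3 * ℓ)) ≤
          ∑ z ∈ hfin.toFinset, volume (Icc (z.im - 3 * ℓ) (z.im + 3 * ℓ)) :=
        measure_biUnion_finset_le _ _
      have h5 : ∑ z ∈ hfin.toFinset, volume (Icc (z.im - 3 * ℓ) (z.im + 3 * ℓ)) =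
          ENNReal.ofReal (hfin.toFinset.card * (6 * ℓ)) := by
        have h6 : ∀ z ∈ hfin.toFinset, volume (Icc (z.im - 3 * ℓ) (z.im + 3 * ℓ)) =
            ENNReal.ofReal (6 * ℓ) := by
          intro z _
          rw [Real.volume_Icc]
          congr 1
          ring
        rw [Finset.sum_congr rfl h6, Finset.sum_const, nsmul_eq_mul,
          ENNReal.ofReal_mul (Nat.cast_nonneg _), ENNReal.ofReal_natCast]
      have h6 := (measure_mono h3).trans (h4.trans h5.le)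
      exact ENNReal.toReal_le_of_le_ofReal (by positivity) h6
    have h7 : T ^ (q - ε / 2) = T ^ (q - ε) * T ^ (ε / 2) := by
      rw [← Real.rpow_add hT0]
      congr 1
      ring
    have hc : (0 : ℝ) ≤ hfin.toFinset.card := Nat.cast_nonneg _
    have hpos : 0 < T ^ (ε / 2) := Real.rpow_pos_of_pos hT0 _
    have h8 : T ^ (q - ε) * T ^ (ε / 2) ≤ hfin.toFinset.card * T ^ (ε / 2) := by
      rw [← h7]
      exact (h1.trans h2).trans (mul_le_mul_of_nonneg_left hsm hc)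
    exact le_of_mul_le_mul_right h8 hpos
  · obtain ⟨Z, hZs, hZc⟩ := Set.Infinite.exists_subset_card_eq hfin ⌈T ^ (q - ε)⌉₊
    refine ⟨Z, ?_, fun z hz => hExim z (hZs hz)⟩
    rw [hZc]
    exact Nat.le_ceil _

end Pool.Agent.H53.RT
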